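import Mathlib

/-!
# Two algebraic lemmas (boxes and split boxes) in characteristic three
-/

set_option autoImplicit false

namespace Pool.Agent.N382.BH

variable {K : Type*} [Field K]

/-- Nonzero vectors of an anisotropic plane orthogonal to the same nonzero vector. -/
theorem det_zero (han : ∀ a b : K, a ^ 2 + b ^ 2 = 0 → a = 0 ∧ b = 0)
    {u1 u2 w1 w2 z1 z2 : K} (hu : ¬ (u1 = 0 ∧ u2 = 0))
    (h1 : u1 * w1 + u2 * w2 = 0) (h2 : u1 * z1 + u2 * z2 = 0) :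
    w1 * z2 - w2 * z1 = 0 := by
  have hn : u1 ^ 2 + u2 ^ 2 ≠ 0 := fun h => hu (han _ _ h)
  have h3 : (u1 ^ 2 + u2 ^ 2) * (w1 * z2 - w2 * z1) = 0 := by
    linear_combination (u1 * z2 - u2 * z1) * h1 - (u1 * w2 - u2 * w1) * h2
  exact (mul_eq_zero.1 h3).resolve_left hn

/-- No box in `{ξ + β + γ + |x + y + z|² = 0}`. -/
theorem box_one (h3 : (3 : K) = 0) (han : ∀ a b : K, a ^ 2 + b ^ 2 = 0 → a = 0 ∧ b = 0)
    {x1 x2 ξ x1' x2' ξ' y1 y2 β y1' y2' β' z1 z2 γ z1' z2' γ' : K}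
    (hx : ¬ (x1 = x1' ∧ x2 = x2' ∧ ξ = ξ')) (hy : ¬ (y1 = y1' ∧ y2 = y2' ∧ β = β'))
    (hz : ¬ (z1 = z1' ∧ z2 = z2' ∧ γ = γ'))
    (e1 : ξ + β + γ + ((x1 + y1 + z1) ^ 2 + (x2 + y2 + z2) ^ 2) = 0)
    (e2 : ξ + β + γ' + ((x1 + y1 + z1') ^ 2 + (x2 + y2 + z2') ^ 2) = 0)
    (e3 : ξ + β' + γ + ((x1 + y1' + z1) ^ 2 + (x2 + y2' + z2) ^ 2) = 0)
    (e4 : ξ + β' + γ' + ((x1 + y1' + z1') ^ 2 + (x2 + y2' + z2') ^ 2) = 0)
    (e5 : ξ' + β + γ + ((x1' + y1 + z1) ^ 2 + (x2' + y2 + z2) ^ 2) = 0)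
    (e6 : ξ' + β + γ' + ((x1' + y1 + z1') ^ 2 + (x2' + y2 + z2') ^ 2) = 0)
    (e7 : ξ' + β' + γ + ((x1' + y1' + z1) ^ 2 + (x2' + y2' + z2) ^ 2) = 0) : False := by
  have h2 : (2 : K) ≠ 0 := by
    intro h
    have : (1 : K) = 0 := by linear_combination h3 - h
    exact one_ne_zero this
  have hyz : (y1 - y1') * (z1 - z1') + (y2 - y2') * (z2 - z2') = 0 := by
    have : 2 * ((y1 - y1') * (z1 - z1') + (y2 - y2') * (z2 - z2')) = 0 := by
      linear_combination e1 - e2 - e3 + e4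
    exact (mul_eq_zero.1 this).resolve_left h2
  have hxz : (x1 - x1') * (z1 - z1') + (x2 - x2') * (z2 - z2') = 0 := by
    have : 2 * ((x1 - x1') * (z1 - z1') + (x2 - x2') * (z2 - z2')) = 0 := by
      linear_combination e1 - e2 - e5 + e6
    exact (mul_eq_zero.1 this).resolve_left h2
  have hxy : (x1 - x1') * (y1 - y1') + (x2 - x2') * (y2 - y2') = 0 := by
    have : 2 * ((x1 - x1') * (y1 - y1') + (x2 - x2') * (y2 - y2')) = 0 := by
      linear_combination e1 - e3 - e5 + e7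
    exact (mul_eq_zero.1 this).resolve_left h2
  have ux : ¬ (x1 - x1' = 0 ∧ x2 - x2' = 0) := by
    rintro ⟨a, b⟩
    have a' := sub_eq_zero.1 a
    have b' := sub_eq_zero.1 b
    subst a' b'
    exact hx ⟨rfl, rfl, by linear_combination e1 - e5⟩
  have uy : ¬ (y1 - y1' = 0 ∧ y2 - y2' = 0) := by
    rintro ⟨a, b⟩
    have a' := sub_eq_zero.1 a
    have b' := sub_eq_zero.1 b
    subst a' b'
    exact hy ⟨rfl, rfl, by linear_combination e1 - e3⟩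
  have uz : ¬ (z1 - z1' = 0 ∧ z2 - z2' = 0) := by
    rintro ⟨a, b⟩
    have a' := sub_eq_zero.1 a
    have b' := sub_eq_zero.1 b
    subst a' b'
    exact hz ⟨rfl, rfl, by linear_combination e1 - e2⟩
  -- `y - y'` and `z - z'` are parallel and orthogonal
  have hd := det_zero han ux hxy hxz
  have hn : (y1 - y1') ^ 2 + (y2 - y2') ^ 2 ≠ 0 := fun h => uy (han _ _ h)
  have k1 : ((y1 - y1') ^ 2 + (y2 - y2') ^ 2) * (z1 - z1') = 0 := by
    linear_combination (y1 - y1') * hyz - (y2 - y2') * hd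
  have k2 : ((y1 - y1') ^ 2 + (y2 - y2') ^ 2) * (z2 - z2') = 0 := by
    linear_combination (y2 - y2') * hyz + (y1 - y1') * hd
  exact uz ⟨(mul_eq_zero.1 k1).resolve_left hn, (mul_eq_zero.1 k2).resolve_left hn⟩

/-- Split boxes: `{η + β + γ + |a + y + z|² = 0}` and `{η' + β + γ + |a' + y - z|² = 0}` have a
common 4-cycle only if `η = η'`. -/
theorem box_two (h3 : (3 : K) = 0) (han : ∀ a b : K, a ^ 2 + b ^ 2 = 0 → a = 0 ∧ b = 0)
    {a1 a2 η a1' a2' η' y1 y2 β y1' y2' β' z1 z2 γ z1' z2' γ' : K}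
    (hy : ¬ (y1 = y1' ∧ y2 = y2' ∧ β = β')) (hz : ¬ (z1 = z1' ∧ z2 = z2' ∧ γ = γ'))
    (e1 : η + β + γ + ((a1 + y1 + z1) ^ 2 + (a2 + y2 + z2) ^ 2) = 0)
    (e2 : η + β + γ' + ((a1 + y1 + z1') ^ 2 + (a2 + y2 + z2') ^ 2) = 0)
    (e3 : η + β' + γ + ((a1 + y1' + z1) ^ 2 + (a2 + y2' + z2) ^ 2) = 0)
    (e4 : η + β' + γ' + ((a1 + y1' + z1') ^ 2 + (a2 + y2' + z2') ^ 2) = 0)
    (d1 : η' + β + γ + ((a1' + y1 - z1) ^ 2 + (a2' + y2 - z2) ^ 2) = 0)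
    (d2 : η' + β + γ' + ((a1' + y1 - z1') ^ 2 + (a2' + y2 - z2') ^ 2) = 0)
    (d3 : η' + β' + γ + ((a1' + y1' - z1) ^ 2 + (a2' + y2' - z2) ^ 2) = 0) : η = η' := by
  have h2 : (2 : K) ≠ 0 := by
    intro h
    have : (1 : K) = 0 := by linear_combination h3 - h
    exact one_ne_zero this
  have hyz : (y1 - y1') * (z1 - z1') + (y2 - y2') * (z2 - z2') = 0 := by
    have : 2 * ((y1 - y1') * (z1 - z1') + (y2 - y2') * (z2 - z2')) = 0 := by
      linear_combination e1 - e2 - e3 + e4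
    exact (mul_eq_zero.1 this).resolve_left h2
  have uy : ¬ (y1 - y1' = 0 ∧ y2 - y2' = 0) := by
    rintro ⟨a, b⟩
    have a' := sub_eq_zero.1 a
    have b' := sub_eq_zero.1 b
    subst a' b'
    exact hy ⟨rfl, rfl, by linear_combination e1 - e3⟩
  have uz : ¬ (z1 - z1' = 0 ∧ z2 - z2' = 0) := by
    rintro ⟨a, b⟩
    have a' := sub_eq_zero.1 a
    have b' := sub_eq_zero.1 b
    subst a' b'
    exact hz ⟨rfl, rfl, by linear_combination e1 - e2⟩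
  -- (i)
  have hi : (y1 - y1') * (z1 - (a1 - a1')) + (y2 - y2') * (z2 - (a2 - a2')) = 0 := by
    linear_combination (e1 - e3) - (d1 - d3) -
      ((y1 - y1') * (a1 - a1' + z1) + (y2 - y2') * (a2 - a2' + z2)) * h3
  -- (ii)
  have hii : (z1 - z1') * (y1 - (a1 + a1')) + (z2 - z2') * (y2 - (a2 + a2')) = 0 := by
    linear_combination (e1 - e2) - (d1 - d2) -
      ((z1 - z1') * (a1 + a1' + y1) + (z2 - z2') * (a2 + a2' + y2)) * h3
  have hd := det_zero han uy hyz hi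
  have hn : (z1 - z1') ^ 2 + (z2 - z2') ^ 2 ≠ 0 := fun h => uz (han _ _ h)
  have k : ((z1 - z1') ^ 2 + (z2 - z2') ^ 2) *
      ((y1 - (a1 + a1')) * (z1 - (a1 - a1')) + (y2 - (a2 + a2')) * (z2 - (a2 - a2'))) = 0 := by
    linear_combination
      ((z1 - z1') * (z1 - (a1 - a1')) + (z2 - z2') * (z2 - (a2 - a2'))) * hii +
      ((z1 - z1') * (y2 - (a2 + a2')) - (z2 - z2') * (y1 - (a1 + a1'))) * hd
  have k' := (mul_eq_zero.1 k).resolve_left hn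
  linear_combination e1 - d1 - k' - (y1 * (a1 - a1' + z1) + y2 * (a2 - a2' + z2)
    + z1 * (a1 + a1') + z2 * (a2 + a2')) * h3

end Pool.Agent.N382.BH
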