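import Mathlib
import Pool.Agent.N382.BH.Alg

/-!
# The four-partite structure
-/

set_option autoImplicit false

namespace Pool.Agent.N382.BH

variable {K : Type*} [Field K]

/-- The sign matrix (a conference matrix of order four). -/
def sg : Fin 4 → Fin 4 → ℤ := ![![0, 1, 1, 1], ![1, 0, -1, 1], ![1, 1, 0, -1], ![1, -1, 1, 0]]

/-- Vertices: the part, a point of the plane and a height. -/
abbrev Vtx (K : Type*) := Fin 4 × K × K × K

/-- `A_l`. -/
def quad (l : Fin 4) (f g : Fin 4 → K) : K :=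
  (∑ i, (sg l i : K) * f i) ^ 2 + (∑ i, (sg l i : K) * g i) ^ 2

/-- Parameters of the members. -/
abbrev Par (K : Type*) := (Fin 4 → K) × (Fin 4 → K) × K

/-- The height of the vertex in part `i`. -/
def ht (t : Par K) (i : Fin 4) : K := t.2.2 + quad i t.1 t.2.1

/-- The vertex in part `i`. -/
def vtx (t : Par K) (i : Fin 4) : Vtx K := (i, t.1 i, t.2.1 i, ht t i)

theorem sum_quad (h3 : (3 : K) = 0) (f g : Fin 4 → K) : ∑ l, quad l f g = 0 := by
  simp only [quad, Fin.sum_univ_four, sg]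
  simp
  linear_combination (f 0 ^ 2 + f 1 ^ 2 + f 2 ^ 2 + f 3 ^ 2 + g 0 ^ 2 + g 1 ^ 2 + g 2 ^ 2 + g 3 ^ 2) * h3

theorem sum_four {M : Type*} [AddCommMonoid M] (h : Fin 4 → M) {i j k l : Fin 4} (hij : i ≠ j)
    (hik : i ≠ k) (hil : i ≠ l) (hjk : j ≠ k) (hjl : j ≠ l) (hkl : k ≠ l) :
    ∑ a, h a = h i + (h j + (h k + h l)) := by
  have hu : (Finset.univ : Finset (Fin 4)) = {i, j, k, l} := by
    revert i j k l
    decide
  rw [hu, Finset.sum_insert (by simp [hij, hik, hil]), Finset.sum_insert (by simp [hjk, hjl]),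
    Finset.sum_insert (by simp [hkl]), Finset.sum_singleton]

theorem sg_self (l : Fin 4) : sg l l = 0 := by
  revert l; decide

theorem sg_sq {l i : Fin 4} (h : l ≠ i) : sg l i * sg l i = 1 := by
  revert l i; decide

theorem sg_orth {i j k l : Fin 4} (hij : i ≠ j) (hik : i ≠ k) (hil : i ≠ l) (hjk : j ≠ k)
    (hjl : j ≠ l) (hkl : k ≠ l) : sg l j * sg l k = - (sg i j * sg i k) := by
  have h : ∀ i j k l : Fin 4, (i ≠ j ∧ i ≠ k ∧ i ≠ l ∧ j ≠ k ∧ j ≠ l ∧ k ≠ l) →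
      sg l j * sg l k = - (sg i j * sg i k) := by decide
  exact h i j k l ⟨hij, hik, hil, hjk, hjl, hkl⟩

/-- The equation satisfied by three vertices of a member. -/
theorem vtx_rel (h3 : (3 : K) = 0) (t : Par K) {i j k l : Fin 4} (hij : i ≠ j)
    (hik : i ≠ k) (hil : i ≠ l) (hjk : j ≠ k) (hjl : j ≠ l) (hkl : k ≠ l) :
    ht t i + ht t j + ht t k +
      (((sg l i : K) * t.1 i + (sg l j : K) * t.1 j + (sg l k : K) * t.1 k) ^ 2 +
       ((sg l i : K) * t.2.1 i + (sg l j : K) * t.2.1 j + (sg l k : K) * t.2.1 k) ^ 2) = 0 := by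
  have hs := sum_quad h3 t.1 t.2.1
  rw [sum_four (fun a => quad a t.1 t.2.1) hij hik hil hjk hjl hkl] at hs
  have hq : quad l t.1 t.2.1 =
      (((sg l i : K) * t.1 i + (sg l j : K) * t.1 j + (sg l k : K) * t.1 k) ^ 2 +
       ((sg l i : K) * t.2.1 i + (sg l j : K) * t.2.1 j + (sg l k : K) * t.2.1 k) ^ 2) := by
    unfold quad
    rw [sum_four (fun a => (sg l a : K) * t.1 a) hij hik hil hjk hjl hkl,
      sum_four (fun a => (sg l a : K) * t.2.1 a) hij hik hil hjk hjl hkl, sg_self]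
    push_cast
    ring
  rw [← hq]
  unfold ht
  linear_combination hs + t.2.2 * h3

/-- Three vertices lie in a member of the family selected by the colouring `χ`. -/
def InMem (χ : K → Fin 4) (u v w : Vtx K) : Prop :=
  ∃ t : Par K, (∀ i, χ (ht t i) = i) ∧ (∃ i, vtx t i = u) ∧ (∃ i, vtx t i = v) ∧ (∃ i, vtx t i = w)

theorem InMem.swap12 {χ : K → Fin 4} {u v w : Vtx K} (h : InMem χ u v w) : InMem χ v u w := by
  obtain ⟨t, ht, a, b, c⟩ := h
  exact ⟨t, ht, b, a, c⟩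

theorem InMem.swap23 {χ : K → Fin 4} {u v w : Vtx K} (h : InMem χ u v w) : InMem χ u w v := by
  obtain ⟨t, ht, a, b, c⟩ := h
  exact ⟨t, ht, a, c, b⟩

theorem InMem.ne12 {χ : K → Fin 4} {u v w : Vtx K} (h : InMem χ u v w) (huv : u ≠ v) :
    u.1 ≠ v.1 := by
  obtain ⟨t, ht, ⟨i, rfl⟩, ⟨j, rfl⟩, -⟩ := h
  intro hij
  exact huv (by
    change i = j at hij
    rw [hij])

theorem InMem.col {χ : K → Fin 4} {u v w : Vtx K} (h : InMem χ u v w) : χ u.2.2.2 = u.1 := by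
  obtain ⟨t, ht, ⟨i, rfl⟩, -⟩ := h
  exact ht i

theorem InMem.rel (h3 : (3 : K) = 0) {χ : K → Fin 4} {u v w : Vtx K} (h : InMem χ u v w)
    {l : Fin 4} (h12 : u.1 ≠ v.1) (h13 : u.1 ≠ w.1) (h14 : u.1 ≠ l) (h23 : v.1 ≠ w.1)
    (h24 : v.1 ≠ l) (h34 : w.1 ≠ l) :
    u.2.2.2 + v.2.2.2 + w.2.2.2 +
      (((sg l u.1 : K) * u.2.1 + (sg l v.1 : K) * v.2.1 + (sg l w.1 : K) * w.2.1) ^ 2 +
       ((sg l u.1 : K) * u.2.2.1 + (sg l v.1 : K) * v.2.2.1 + (sg l w.1 : K) * w.2.2.1) ^ 2) = 0 := by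
  obtain ⟨t, ht, ⟨i, rfl⟩, ⟨j, rfl⟩, ⟨k, rfl⟩⟩ := h
  exact vtx_rel h3 t h12 h13 h14 h23 h24 h34

theorem sg_cases {l i : Fin 4} (h : l ≠ i) : sg l i = 1 ∨ sg l i = -1 := by
  revert l i; decide

theorem exists_fourth {i j k : Fin 4} (hij : i ≠ j) (hik : i ≠ k) (hjk : j ≠ k) :
    ∃ l : Fin 4, i ≠ l ∧ j ≠ l ∧ k ≠ l := by
  revert i j k; decide

/-- No octahedron with at most the first pair split. -/
theorem no_oct_aux (h3 : (3 : K) = 0) (han : ∀ a b : K, a ^ 2 + b ^ 2 = 0 → a = 0 ∧ b = 0)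
    {χ : K → Fin 4} {a a' b b' c c' : Vtx K} (ha : a ≠ a') (hb : b ≠ b') (hc : c ≠ c')
    (hab : a ≠ b) (hac : a ≠ c) (hbc : b ≠ c) (hab' : a' ≠ b) (hac' : a' ≠ c)
    (hpb : b'.1 = b.1) (hpc : c'.1 = c.1)
    (e1 : InMem χ a b c) (e2 : InMem χ a b c') (e3 : InMem χ a b' c) (e4 : InMem χ a b' c')
    (e5 : InMem χ a' b c) (e6 : InMem χ a' b c') (e7 : InMem χ a' b' c) : False := by
  have pab : a.1 ≠ b.1 := e1.ne12 hab
  have pac : a.1 ≠ c.1 := e1.swap23.ne12 hac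
  have pbc : b.1 ≠ c.1 := e1.swap12.swap23.ne12 hbc
  have pab' : a'.1 ≠ b.1 := e5.ne12 hab'
  have pac' : a'.1 ≠ c.1 := e5.swap23.ne12 hac'
  have hχa := e1.col
  have hχa' := e5.col
  obtain ⟨i, a1, a2, a3⟩ := a
  obtain ⟨i', a1', a2', a3'⟩ := a'
  obtain ⟨j, b1, b2, b3⟩ := b
  obtain ⟨j', b1', b2', b3'⟩ := b'
  obtain ⟨k, c1, c2, c3⟩ := c
  obtain ⟨k', c1', c2', c3'⟩ := c'
  dsimp only at hpb hpc pab pac pbc pab' pac' hχa hχa'
  subst hpb hpc
  have hb' : ¬ (b1 = b1' ∧ b2 = b2' ∧ b3 = b3') := by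
    rintro ⟨rfl, rfl, rfl⟩; exact hb rfl
  have hc' : ¬ (c1 = c1' ∧ c2 = c2' ∧ c3 = c3') := by
    rintro ⟨rfl, rfl, rfl⟩; exact hc rfl
  by_cases hii : i' = i
  · -- unsplit
    subst hii
    have ha' : ¬ (a1 = a1' ∧ a2 = a2' ∧ a3 = a3') := by
      rintro ⟨rfl, rfl, rfl⟩; exact ha rfl
    obtain ⟨l, hil, hjl, hkl⟩ := exists_fourth pab pac pbc
    have f1 := e1.rel h3 pab pac hil pbc hjl hkl
    have f2 := e2.rel h3 pab pac hil pbc hjl hkl
    have f3 := e3.rel h3 pab pac hil pbc hjl hkl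
    have f4 := e4.rel h3 pab pac hil pbc hjl hkl
    have f5 := e5.rel h3 pab pac hil pbc hjl hkl
    have f6 := e6.rel h3 pab pac hil pbc hjl hkl
    have f7 := e7.rel h3 pab pac hil pbc hjl hkl
    dsimp only at f1 f2 f3 f4 f5 f6 f7
    have s1 : ((sg l i' : ℤ) : K) ≠ 0 := by
      rcases sg_cases hil.symm with h | h <;> rw [h] <;> simp
    have s2 : ((sg l j' : ℤ) : K) ≠ 0 := by
      rcases sg_cases hjl.symm with h | h <;> rw [h] <;> simp
    have s3 : ((sg l k' : ℤ) : K) ≠ 0 := by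
      rcases sg_cases hkl.symm with h | h <;> rw [h] <;> simp
    refine box_one h3 han (x1 := (sg l i' : K) * a1) (x2 := (sg l i' : K) * a2)
      (x1' := (sg l i' : K) * a1') (x2' := (sg l i' : K) * a2')
      (y1 := (sg l j' : K) * b1) (y2 := (sg l j' : K) * b2)
      (y1' := (sg l j' : K) * b1') (y2' := (sg l j' : K) * b2')
      (z1 := (sg l k' : K) * c1) (z2 := (sg l k' : K) * c2)
      (z1' := (sg l k' : K) * c1') (z2' := (sg l k' : K) * c2')
      ?_ ?_ ?_ f1 f2 f3 f4 f5 f6 f7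
    · rintro ⟨h1, h2, h3⟩
      exact ha' ⟨mul_left_cancel₀ s1 h1, mul_left_cancel₀ s1 h2, h3⟩
    · rintro ⟨h1, h2, h3⟩
      exact hb' ⟨mul_left_cancel₀ s2 h1, mul_left_cancel₀ s2 h2, h3⟩
    · rintro ⟨h1, h2, h3⟩
      exact hc' ⟨mul_left_cancel₀ s3 h1, mul_left_cancel₀ s3 h2, h3⟩
  · -- split: `i, i', j', k'` are all the parts
    have hii' : i ≠ i' := fun h => hii h.symm
    have f1 := e1.rel h3 pab pac hii' pbc pab'.symm pac'.symm
    have f2 := e2.rel h3 pab pac hii' pbc pab'.symm pac'.symm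
    have f3 := e3.rel h3 pab pac hii' pbc pab'.symm pac'.symm
    have f4 := e4.rel h3 pab pac hii' pbc pab'.symm pac'.symm
    have f5 := e5.rel h3 pab' pac' hii pbc pab.symm pac.symm
    have f6 := e6.rel h3 pab' pac' hii pbc pab.symm pac.symm
    have f7 := e7.rel h3 pab' pac' hii pbc pab.symm pac.symm
    dsimp only at f1 f2 f3 f4 f5 f6 f7
    have o := sg_orth (i := i) (j := j') (k := k') (l := i') pab pac hii' pbc pab'.symm pac'.symm
    have q1 := sg_sq (l := i') (i := j') pab'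
    have q2 := sg_sq (l := i') (i := k') pac'
    have q3 := sg_sq (l := i) (i := j') pab
    have q4 := sg_sq (l := i) (i := k') pac
    have r2 : ((sg i' j' : ℤ) : K) ≠ 0 := by
      rcases sg_cases pab' with h | h <;> rw [h] <;> simp
    have r3 : ((sg i' k' : ℤ) : K) ≠ 0 := by
      rcases sg_cases pac' with h | h <;> rw [h] <;> simp
    -- `y = p y_j`, `z = q z_k`; in the second family multiply inside the norm by `ε = p p'`
    have key : a3 = a3' := by
      refine box_two h3 han (a1 := (sg i' i : K) * a1) (a2 := (sg i' i : K) * a2)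
        (a1' := (sg i' j' : K) * (sg i j' : K) * ((sg i i' : K) * a1'))
        (a2' := (sg i' j' : K) * (sg i j' : K) * ((sg i i' : K) * a2'))
        (y1 := (sg i' j' : K) * b1) (y2 := (sg i' j' : K) * b2)
        (y1' := (sg i' j' : K) * b1') (y2' := (sg i' j' : K) * b2')
        (z1 := (sg i' k' : K) * c1) (z2 := (sg i' k' : K) * c2)
        (z1' := (sg i' k' : K) * c1') (z2' := (sg i' k' : K) * c2')
        (β := b3) (β' := b3') (γ := c3) (γ' := c3')
        ?_ ?_ f1 f2 f3 f4 ?_ ?_ ?_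
      · rintro ⟨h1, h2, h3⟩
        exact hb' ⟨mul_left_cancel₀ r2 h1, mul_left_cancel₀ r2 h2, h3⟩
      · rintro ⟨h1, h2, h3⟩
        exact hc' ⟨mul_left_cancel₀ r3 h1, mul_left_cancel₀ r3 h2, h3⟩
      all_goals
        have o' : ((sg i' j' : ℤ) : K) * (sg i' k' : ℤ) = - ((sg i j' : ℤ) * (sg i k' : ℤ)) := by
          exact_mod_cast congrArg (Int.cast : ℤ → K) o
        rcases sg_cases pab' with h | h <;> rcases sg_cases pac' with h' | h' <;>
          rcases sg_cases pab with g | g <;> rcases sg_cases pac with g' | g' <;>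
          simp only [h, h', g, g', Int.cast_one, Int.cast_neg, one_mul, neg_mul, mul_one, mul_neg,
            neg_neg] at o o' f5 f6 f7 ⊢ <;>
          first
            | (exfalso; revert o; decide)
            | linear_combination f5
            | linear_combination f6
            | linear_combination f7
    rw [← key, hχa] at hχa'
    exact hii' hχa'

end Pool.Agent.N382.BH
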