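import Mathlib
import Pool.Agent.N382.BH.Struct

/-!
# Counting and choosing the colouring
-/

set_option autoImplicit false

namespace Pool.Agent.N382.BH

open Finset

set_option linter.unusedSectionVars false

variable {K : Type} [Field K] [Fintype K] [DecidableEq K]

theorem card_par : Fintype.card (Par K) = Fintype.card K ^ 9 := by
  simp only [Fintype.card_prod, Fintype.card_fun, Fintype.card_fin]
  ring

/-- Translation of one coordinate. -/
def tr (j : Fin 4) (s : K) : Par K ≃ Par K :=
  (Equiv.addRight (fun k => if k = j then s else 0)).prodCongr (Equiv.refl _)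

theorem tr_fst (j : Fin 4) (s : K) (t : Par K) :
    (tr j s t).1 = t.1 + fun k => if k = j then s else 0 := rfl

theorem tr_snd (j : Fin 4) (s : K) (t : Par K) : (tr j s t).2 = t.2 := rfl

theorem lin_tr (l j : Fin 4) (s : K) (t : Par K) :
    ∑ i, (sg l i : K) * (tr j s t).1 i = (∑ i, (sg l i : K) * t.1 i) + (sg l j : K) * s := by
  rw [tr_fst]
  simp only [Pi.add_apply, mul_add, Finset.sum_add_distrib, mul_ite, mul_zero,
    Finset.sum_ite_eq', Finset.mem_univ, if_true]

theorem card_coll_s {i j : Fin 4} (hij : i ≠ j) (t : Par K) :
    (univ.filter fun s : K => ht (tr j s t) i = ht (tr j s t) j).card ≤ 2 := by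
  rcases (univ.filter fun s : K => ht (tr j s t) i = ht (tr j s t) j).eq_empty_or_nonempty with
    h | ⟨s0, hs0⟩
  · rw [h]; simp
  · have h1 : (univ.filter fun s : K => ht (tr j s t) i = ht (tr j s t) j) ⊆
        {s0, -(2 * (sg i j : K) * (∑ a, (sg i a : K) * t.1 a) + s0)} := by
      intro s hs
      rw [Finset.mem_filter] at hs hs0
      have a := hs.2
      have b := hs0.2
      unfold ht quad at a b
      simp only [tr_snd] at a b
      rw [lin_tr, lin_tr, sg_self] at a b
      have q : ((sg i j : ℤ) : K) * ((sg i j : ℤ) : K) = 1 := by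
        exact_mod_cast congrArg (Int.cast : ℤ → K) (sg_sq hij)
      have c : (s - s0) * (s + (2 * (sg i j : K) * (∑ a, (sg i a : K) * t.1 a) + s0)) = 0 := by
        push_cast at a b
        linear_combination a - b - (s ^ 2 - s0 ^ 2) * q
      rw [Finset.mem_insert, Finset.mem_singleton]
      rcases mul_eq_zero.1 c with h | h
      · left; exact sub_eq_zero.1 h
      · right; exact eq_neg_of_add_eq_zero_left h
    exact (Finset.card_le_card h1).trans Finset.card_le_two

theorem card_coll {i j : Fin 4} (hij : i ≠ j) :
    (univ.filter fun t : Par K => ht t i = ht t j).card ≤ 2 * Fintype.card K ^ 8 := by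
  have h1 : Fintype.card K * (univ.filter fun t : Par K => ht t i = ht t j).card =
      ∑ t : Par K, (univ.filter fun s : K => ht (tr j s t) i = ht (tr j s t) j).card := by
    simp only [Finset.card_filter]
    rw [Finset.sum_comm]
    have : ∀ s : K, ∑ t : Par K, (if ht (tr j s t) i = ht (tr j s t) j then 1 else 0) =
        ∑ t : Par K, (if ht t i = ht t j then 1 else 0) := fun s =>
      (tr j s).sum_comp (fun t : Par K => if ht t i = ht t j then 1 else 0)
    simp only [this, Finset.sum_const, Finset.card_univ, smul_eq_mul]
  have h2 : Fintype.card K * (univ.filter fun t : Par K => ht t i = ht t j).card ≤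
      Fintype.card K * (2 * Fintype.card K ^ 8) := by
    rw [h1]
    calc ∑ t : Par K, (univ.filter fun s : K => ht (tr j s t) i = ht (tr j s t) j).card
        ≤ ∑ _t : Par K, 2 := Finset.sum_le_sum fun t _ => card_coll_s hij t
      _ = Fintype.card K * (2 * Fintype.card K ^ 8) := by
          rw [Finset.sum_const, Finset.card_univ, card_par, smul_eq_mul]; ring
  exact Nat.le_of_mul_le_mul_left h2 Fintype.card_pos

open Classical in
theorem card_inj :
    Fintype.card K ^ 9 ≤ (univ.filter fun t : Par K => Function.Injective (ht t)).card +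
      24 * Fintype.card K ^ 8 := by
  have h1 : (univ.filter fun t : Par K => ¬ Function.Injective (ht t)) ⊆
      (univ : Finset (Fin 4)).offDiag.biUnion
        fun p => univ.filter fun t : Par K => ht t p.1 = ht t p.2 := by
    intro t ht'
    rw [Finset.mem_filter] at ht'
    have := ht'.2
    unfold Function.Injective at this
    push Not at this
    obtain ⟨i, j, h, hij⟩ := this
    rw [Finset.mem_biUnion]
    exact ⟨(i, j), by simp [hij], by simp [h]⟩
  have h2 : (univ.filter fun t : Par K => ¬ Function.Injective (ht t)).card ≤
      24 * Fintype.card K ^ 8 := by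
    refine (Finset.card_le_card h1).trans (Finset.card_biUnion_le.trans ?_)
    calc ∑ p ∈ (univ : Finset (Fin 4)).offDiag,
          (univ.filter fun t : Par K => ht t p.1 = ht t p.2).card
        ≤ ∑ _p ∈ (univ : Finset (Fin 4)).offDiag, 2 * Fintype.card K ^ 8 := by
          refine Finset.sum_le_sum fun p hp => card_coll ?_
          exact (Finset.mem_offDiag.1 hp).2.2
      _ = 24 * Fintype.card K ^ 8 := by
          rw [Finset.sum_const, Finset.offDiag_card]
          simp only [Finset.card_univ, Fintype.card_fin, smul_eq_mul]
          ring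
  have h3 := Finset.card_filter_add_card_filter_not (s := (univ : Finset (Par K)))
    (fun t : Par K => Function.Injective (ht t))
  rw [Finset.card_univ, card_par] at h3
  omega

open Classical in
/-- Number of colourings adapted to four distinct points. -/
theorem card_col {η : Fin 4 → K} (hη : Function.Injective η) :
    Fintype.card (K → Fin 4) ≤
      256 * (univ.filter fun χ : K → Fin 4 => ∀ i, χ (η i) = i).card := by
  let S := {χ : K → Fin 4 // ∀ i, χ (η i) = i}
  let g : (K → Fin 4) → S × (Fin 4 → Fin 4) := fun χ =>
    (⟨fun a => if h : ∃ i, η i = a then h.choose else χ a, by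
      intro i
      have h : ∃ i', η i' = η i := ⟨i, rfl⟩
      dsimp only
      rw [dif_pos h]
      exact hη h.choose_spec⟩, χ ∘ η)
  have hg : Function.Injective g := by
    intro χ χ' h
    have h1 := congrArg Prod.fst h
    have h2 := congrArg Prod.snd h
    funext a
    by_cases ha : ∃ i, η i = a
    · obtain ⟨i, rfl⟩ := ha
      exact congrFun h2 i
    · have h3 := congrFun (congrArg Subtype.val h1) a
      simp only [g, dif_neg ha] at h3
      exact h3
  have h1 := Fintype.card_le_of_injective g hg
  rw [Fintype.card_prod, Fintype.card_subtype] at h1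
  have h2 : Fintype.card (Fin 4 → Fin 4) = 256 := by simp
  rw [h2] at h1
  linarith

open Classical in
/-- A good colouring. -/
theorem exists_col : ∃ χ : K → Fin 4,
    (univ.filter fun t : Par K => Function.Injective (ht t)).card ≤
      256 * Fintype.card {t : Par K // ∀ i, χ (ht t i) = i} := by
  by_contra hcon
  push Not at hcon
  set T := univ.filter fun t : Par K => Function.Injective (ht t) with hT
  have h1 : ∑ χ : K → Fin 4, 256 * (T.filter fun t => ∀ i, χ (ht t i) = i).card <
      ∑ _χ : K → Fin 4, T.card := by
    refine Finset.sum_lt_sum_of_nonempty Finset.univ_nonempty fun χ _ => ?_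
    refine lt_of_le_of_lt ?_ (hcon χ)
    rw [Fintype.card_subtype]
    refine Nat.mul_le_mul_left _ (Finset.card_le_card ?_)
    intro t ht'
    rw [Finset.mem_filter] at ht' ⊢
    exact ⟨Finset.mem_univ _, ht'.2⟩
  have h2 : ∑ χ : K → Fin 4, 256 * (T.filter fun t => ∀ i, χ (ht t i) = i).card =
      ∑ t ∈ T, 256 * (univ.filter fun χ : K → Fin 4 => ∀ i, χ (ht t i) = i).card := by
    simp only [Finset.card_filter, Finset.mul_sum]
    rw [Finset.sum_comm]
  have h3 : T.card * Fintype.card (K → Fin 4) ≤
      ∑ t ∈ T, 256 * (univ.filter fun χ : K → Fin 4 => ∀ i, χ (ht t i) = i).card := by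
    rw [← smul_eq_mul, ← Finset.sum_const]
    refine Finset.sum_le_sum fun t ht' => ?_
    exact card_col (Finset.mem_filter.1 ht').2
  rw [h2, Finset.sum_const, Finset.card_univ, smul_eq_mul, mul_comm] at h1
  exact absurd h1 (not_lt.2 h3)

end Pool.Agent.N382.BH
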