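import Mathlib

/-!
# Berge extremal functions: definitions
-/

set_option autoImplicit false

namespace Pool.Agent.N382.BH

/-- `F ⋘ A` for (0,1)-matrices (entries in `Bool`, `true` for `1`): after choosing distinct rows
and distinct columns of `A`, in any order, the selected submatrix is entrywise at least `F`. -/
def Berge {ρ κ ρ' κ' : Type} (F : Matrix ρ κ Bool) (A : Matrix ρ' κ' Bool) : Prop :=
  ∃ (r : ρ ↪ ρ') (c : κ ↪ κ'), ∀ i j, F i j ≤ A (r i) (c j)

/-- A matrix is simple if it has no two equal columns. -/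
def IsSimple {ρ κ : Type} (A : Matrix ρ κ Bool) : Prop :=
  ∀ j j' : κ, (∀ i, A i j = A i j') → j = j'

/-- `Bh(m, F)`: the largest number of columns of an `m`-rowed simple matrix `A` without
`F ⋘ A`. -/
noncomputable def Bh {ρ κ : Type} (m : ℕ) (F : Matrix ρ κ Bool) : ℕ :=
  sSup {n : ℕ | ∃ A : Matrix (Fin m) (Fin n) Bool, IsSimple A ∧ ¬ Berge F A}

/-- `f(F, P)` for an `m`-rowed matrix `P`: the largest number of columns of an `m`-rowed simple
matrix `A` with `A ⋘ P` and without `F ⋘ A`. -/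
noncomputable def fBerge {ρ κ ρ' κ' : Type} (m : ℕ) (F : Matrix ρ κ Bool)
    (P : Matrix ρ' κ' Bool) : ℕ :=
  sSup {n : ℕ | ∃ A : Matrix (Fin m) (Fin n) Bool, IsSimple A ∧ Berge A P ∧ ¬ Berge F A}

/-- The product of matrices: all stackings of a column of `A` above a column of `B`. -/
def prod {ρ κ ρ' κ' : Type} (A : Matrix ρ κ Bool) (B : Matrix ρ' κ' Bool) :
    Matrix (ρ ⊕ ρ') (κ × κ') Bool :=
  fun i j => Sum.elim (fun a => A a j.1) (fun b => B b j.2) i

/-- The identity matrix `I_t`. -/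
def idm (t : ℕ) : Matrix (Fin t) (Fin t) Bool := fun i j => decide (i = j)

/-- `I_t × I_t × I_t`, a `3t × t³` matrix. -/
def cubeI (t : ℕ) : Matrix ((Fin t ⊕ Fin t) ⊕ Fin t) ((Fin t × Fin t) × Fin t) Bool :=
  prod (prod (idm t) (idm t)) (idm t)

theorem bddAbove_Bh {ρ κ : Type} (m : ℕ) (F : Matrix ρ κ Bool) :
    BddAbove {n : ℕ | ∃ A : Matrix (Fin m) (Fin n) Bool, IsSimple A ∧ ¬ Berge F A} := by
  refine ⟨2 ^ m, ?_⟩
  rintro n ⟨A, hA, -⟩
  have h : Function.Injective (fun j : Fin n => fun i : Fin m => A i j) := by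
    intro j j' hj
    exact hA j j' (fun i => congrFun hj i)
  have h2 := Fintype.card_le_of_injective _ h
  simpa using h2

theorem le_Bh {ρ κ : Type} {m n : ℕ} {F : Matrix ρ κ Bool} {A : Matrix (Fin m) (Fin n) Bool}
    (h1 : IsSimple A) (h2 : ¬ Berge F A) : n ≤ Bh m F :=
  le_csSup (bddAbove_Bh m F) ⟨A, h1, h2⟩

theorem fBerge_le {ρ κ ρ' κ' : Type} {m : ℕ} {F : Matrix ρ κ Bool} {P : Matrix ρ' κ' Bool} {B : ℕ}
    (h : ∀ n, ∀ A : Matrix (Fin m) (Fin n) Bool, IsSimple A → Berge A P → ¬ Berge F A → n ≤ B) :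
    fBerge m F P ≤ B := by
  rcases Set.eq_empty_or_nonempty
    {n : ℕ | ∃ A : Matrix (Fin m) (Fin n) Bool, IsSimple A ∧ Berge A P ∧ ¬ Berge F A} with h1 | h1
  · unfold fBerge
    rw [h1]
    simp
  · refine csSup_le h1 ?_
    rintro n ⟨A, a, b, c⟩
    exact h n A a b c

end Pool.Agent.N382.BH
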