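import Mathlib
import Pool.Agent.N382.BH.Defs
import Pool.Agent.N382.BH.Struct

/-!
# No octahedron, and the matrix of the family
-/

set_option autoImplicit false

namespace Pool.Agent.N382.BH

variable {K : Type} [Field K]

theorem parts_aux : ∀ a a' b b' c c' : Fin 4,
    (a ≠ b ∧ a ≠ b' ∧ a ≠ c ∧ a ≠ c' ∧ a' ≠ b ∧ a' ≠ b' ∧ a' ≠ c ∧ a' ≠ c' ∧
      b ≠ c ∧ b ≠ c' ∧ b' ≠ c ∧ b' ≠ c') →
    (b' = b ∧ c' = c) ∨ (a' = a ∧ c' = c) ∨ (a' = a ∧ b' = b) := by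
  decide +kernel

theorem no_oct (h3 : (3 : K) = 0) (han : ∀ a b : K, a ^ 2 + b ^ 2 = 0 → a = 0 ∧ b = 0)
    {χ : K → Fin 4} {a a' b b' c c' : Vtx K} (ha : a ≠ a') (hb : b ≠ b') (hc : c ≠ c')
    (hab : a ≠ b) (hac : a ≠ c) (hbc : b ≠ c) (hab' : a ≠ b') (hac' : a ≠ c') (hbc' : b ≠ c')
    (ha'b : a' ≠ b) (ha'c : a' ≠ c) (hb'c : b' ≠ c)
    (ha'b' : a' ≠ b') (ha'c' : a' ≠ c') (hb'c' : b' ≠ c')
    (e1 : InMem χ a b c) (e2 : InMem χ a b c') (e3 : InMem χ a b' c) (e4 : InMem χ a b' c')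
    (e5 : InMem χ a' b c) (e6 : InMem χ a' b c') (e7 : InMem χ a' b' c)
    (e8 : InMem χ a' b' c') : False := by
  rcases parts_aux a.1 a'.1 b.1 b'.1 c.1 c'.1
    ⟨e1.ne12 hab, e3.ne12 hab', e1.swap23.ne12 hac, e2.swap23.ne12 hac',
      e5.ne12 ha'b, e7.ne12 ha'b', e5.swap23.ne12 ha'c, e6.swap23.ne12 ha'c',
      e1.swap12.swap23.ne12 hbc, e2.swap12.swap23.ne12 hbc',
      e3.swap12.swap23.ne12 hb'c, e4.swap12.swap23.ne12 hb'c'⟩ with ⟨h1, h2⟩ | ⟨h1, h2⟩ | ⟨h1, h2⟩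
  · exact no_oct_aux h3 han ha hb hc hab hac hbc ha'b ha'c h1 h2 e1 e2 e3 e4 e5 e6 e7
  · exact no_oct_aux h3 han hb ha hc hab.symm hbc hac hab'.symm hb'c h1 h2 e1.swap12 e2.swap12
      e5.swap12 e6.swap12 e3.swap12 e4.swap12 e7.swap12
  · exact no_oct_aux h3 han hc ha hb hac.symm hbc.symm hab hac'.symm hbc'.symm h1 h2
      e1.swap23.swap12 e3.swap23.swap12 e5.swap23.swap12 e7.swap23.swap12 e2.swap23.swap12
      e4.swap23.swap12 e6.swap23.swap12

theorem vtx_inj {t t' : Par K} (h : ∀ i, vtx t i = vtx t' i) : t = t' := by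
  obtain ⟨f, g, c⟩ := t
  obtain ⟨f', g', c'⟩ := t'
  have h1 : f = f' := funext fun i => congrArg (fun v : Vtx K => v.2.1) (h i)
  have h2 : g = g' := funext fun i => congrArg (fun v : Vtx K => v.2.2.1) (h i)
  subst h1 h2
  have h3 : ht (f, g, c) 0 = ht (f, g, c') 0 := congrArg (fun v : Vtx K => v.2.2.2) (h 0)
  unfold ht at h3
  have h4 : c = c' := add_right_cancel h3
  rw [h4]

open Classical in
theorem matrix_exists [Fintype K] (h3 : (3 : K) = 0)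
    (han : ∀ a b : K, a ^ 2 + b ^ 2 = 0 → a = 0 ∧ b = 0) (χ : K → Fin 4) (m : ℕ)
    (hm : 4 * Fintype.card K ^ 3 ≤ m) :
    Fintype.card {t : Par K // ∀ i, χ (ht t i) = i} ≤ Bh m (cubeI 2) := by
  have hcR : Fintype.card (Vtx K) ≤ Fintype.card (Fin m) := by
    simp only [Fintype.card_prod, Fintype.card_fin]
    calc 4 * (Fintype.card K * (Fintype.card K * Fintype.card K))
        = 4 * Fintype.card K ^ 3 := by ring
      _ ≤ m := hm
  obtain ⟨e⟩ := Function.Embedding.nonempty_of_card_le hcR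
  let φ : Fin (Fintype.card {t : Par K // ∀ i, χ (ht t i) = i}) ≃
    {t : Par K // ∀ i, χ (ht t i) = i} := (Fintype.equivFin _).symm
  let A : Matrix (Fin m) (Fin (Fintype.card {t : Par K // ∀ i, χ (ht t i) = i})) Bool :=
    fun i j => decide (∃ p : Fin 4, e (vtx (φ j).1 p) = i)
  have hA : ∀ i j, A i j = true ↔ ∃ p : Fin 4, e (vtx (φ j).1 p) = i := fun i j => by
    simp [A]
  refine le_Bh (A := A) ?_ ?_
  · intro j j' h
    apply φ.injective
    apply Subtype.ext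
    apply vtx_inj
    intro p
    have h1 : A (e (vtx (φ j).1 p)) j = true := (hA _ _).2 ⟨p, rfl⟩
    rw [h] at h1
    obtain ⟨p', hp'⟩ := (hA _ _).1 h1
    have h2 := e.injective hp'
    have h4 : p' = p := congrArg (fun v : Vtx K => v.1) h2
    rw [h4] at h2
    exact h2.symm
  · rintro ⟨r, c, h⟩
    have hin : ∀ ρ j, cubeI 2 ρ j = true → ∃ p : Fin 4, e (vtx (φ (c j)).1 p) = r ρ := by
      intro ρ j hij
      have h1 := h ρ j
      rw [hij] at h1
      exact (hA _ _).1 (top_le_iff.1 h1)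
    have hv : ∀ ρ, ∃ v : Vtx K, e v = r ρ := by
      rintro ((i | i) | i)
      · obtain ⟨p, hp⟩ := hin (Sum.inl (Sum.inl i)) ((i, 0), 0) (by simp [cubeI, prod, idm])
        exact ⟨_, hp⟩
      · obtain ⟨p, hp⟩ := hin (Sum.inl (Sum.inr i)) ((0, i), 0) (by simp [cubeI, prod, idm])
        exact ⟨_, hp⟩
      · obtain ⟨p, hp⟩ := hin (Sum.inr i) ((0, 0), i) (by simp [cubeI, prod, idm])
        exact ⟨_, hp⟩
    choose v hv using hv
    have hne : ∀ ρ ρ', ρ ≠ ρ' → v ρ ≠ v ρ' := by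
      intro ρ ρ' hρ h1
      apply hρ
      apply r.injective
      rw [← hv ρ, ← hv ρ', h1]
    have hmem : ∀ i j k : Fin 2, InMem χ (v (Sum.inl (Sum.inl i))) (v (Sum.inl (Sum.inr j)))
        (v (Sum.inr k)) := by
      intro i j k
      refine ⟨(φ (c ((i, j), k))).1, (φ (c ((i, j), k))).2, ?_, ?_, ?_⟩
      · obtain ⟨p, hp⟩ := hin (Sum.inl (Sum.inl i)) ((i, j), k) (by simp [cubeI, prod, idm])
        exact ⟨p, e.injective (hp.trans (hv _).symm)⟩
      · obtain ⟨p, hp⟩ := hin (Sum.inl (Sum.inr j)) ((i, j), k) (by simp [cubeI, prod, idm])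
        exact ⟨p, e.injective (hp.trans (hv _).symm)⟩
      · obtain ⟨p, hp⟩ := hin (Sum.inr k) ((i, j), k) (by simp [cubeI, prod, idm])
        exact ⟨p, e.injective (hp.trans (hv _).symm)⟩
    exact no_oct h3 han (χ := χ)
      (hne (Sum.inl (Sum.inl 0)) (Sum.inl (Sum.inl 1)) (by decide))
      (hne (Sum.inl (Sum.inr 0)) (Sum.inl (Sum.inr 1)) (by decide))
      (hne (Sum.inr 0) (Sum.inr 1) (by decide))
      (hne _ _ (by decide)) (hne _ _ (by decide)) (hne _ _ (by decide)) (hne _ _ (by decide))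
      (hne _ _ (by decide)) (hne _ _ (by decide)) (hne _ _ (by decide)) (hne _ _ (by decide))
      (hne _ _ (by decide)) (hne _ _ (by decide)) (hne _ _ (by decide)) (hne _ _ (by decide))
      (hmem 0 0 0) (hmem 0 0 1) (hmem 0 1 0) (hmem 0 1 1)
      (hmem 1 0 0) (hmem 1 0 1) (hmem 1 1 0) (hmem 1 1 1)

end Pool.Agent.N382.BH
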