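import Mathlib
import Pool.Agent.N382.BH.Defs
import Pool.Agent.N382.BH.Oct
import Pool.Agent.N382.BH.Count

/-!
# The cubic lower bound
-/

set_option autoImplicit false

namespace Pool.Agent.N382.BH

theorem lower_field {K : Type} [Field K] [Fintype K] (h3 : (3 : K) = 0)
    (han : ∀ a b : K, a ^ 2 + b ^ 2 = 0 → a = 0 ∧ b = 0) (hq : 48 ≤ Fintype.card K) (m : ℕ)
    (hm : 4 * Fintype.card K ^ 3 ≤ m) : Fintype.card K ^ 9 ≤ 512 * Bh m (cubeI 2) := by
  classical
  obtain ⟨χ, hχ⟩ := exists_col (K := K)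
  have h1 := card_inj (K := K)
  have h2 := matrix_exists h3 han χ m hm
  have h4 : 48 * Fintype.card K ^ 8 ≤ Fintype.card K ^ 9 := by
    rw [pow_succ (Fintype.card K) 8, mul_comm]
    exact Nat.mul_le_mul_left _ hq
  have h5 : Fintype.card {t : Par K // ∀ i, χ (ht t i) = i} ≤ Bh m (cubeI 2) := by
    convert h2
  omega

theorem lower_pow (n : ℕ) (hn : 2 ≤ n) (m : ℕ) (hm : 108 * 729 ^ n ≤ m) :
    (27 * 729 ^ n) ^ 3 ≤ 512 * Bh m (cubeI 2) := by
  have : Fact (Nat.Prime 3) := ⟨Nat.prime_three⟩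
  let K := GaloisField 3 (2 * n + 1)
  have : Fintype K := Fintype.ofFinite K
  have hcard : Fintype.card K = 3 ^ (2 * n + 1) := by
    rw [← Nat.card_eq_fintype_card]
    exact GaloisField.card 3 (2 * n + 1) (by omega)
  have h3 : (3 : K) = 0 := by
    have := CharP.cast_eq_zero K 3
    exact_mod_cast this
  have hmod : Fintype.card K % 4 = 3 := by
    rw [hcard, pow_succ, pow_mul]
    have : (3 ^ 2) ^ n % 4 = 1 := by
      rw [Nat.pow_mod]; norm_num
    omega
  have hsq : ¬ IsSquare (-1 : K) := by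
    rw [FiniteField.isSquare_neg_one_iff]
    simp [hmod]
  have han : ∀ a b : K, a ^ 2 + b ^ 2 = 0 → a = 0 ∧ b = 0 := by
    intro a b hab
    by_cases hb : b = 0
    · subst hb
      refine ⟨?_, rfl⟩
      have : a ^ 2 = 0 := by linear_combination hab
      exact pow_eq_zero_iff (two_ne_zero) |>.1 this
    · exfalso
      apply hsq
      refine ⟨a / b, ?_⟩
      rw [div_mul_div_comm, eq_div_iff (mul_ne_zero hb hb)]
      linear_combination -hab
  have hp : 3 ^ (2 * n + 1) = 3 * 9 ^ n := by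
    rw [pow_succ, pow_mul]; ring
  have h9 : 9 ^ 2 ≤ 9 ^ n := Nat.pow_le_pow_right (by norm_num) hn
  have hq : 48 ≤ Fintype.card K := by
    rw [hcard, hp]; omega
  have hc3 : Fintype.card K ^ 3 = 27 * 729 ^ n := by
    rw [hcard, hp, mul_pow, ← pow_mul, mul_comm n 3, pow_mul]; norm_num
  have h := lower_field h3 han hq m (by rw [hc3]; omega)
  have h9' : Fintype.card K ^ 9 = (Fintype.card K ^ 3) ^ 3 := by ring
  rw [h9', hc3] at h
  exact h

theorem lower_bound (m : ℕ) (hm : 57395628 ≤ m) :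
    ((m : ℝ) / 23328) ^ 3 ≤ Bh m (cubeI 2) := by
  have hm' : (57395628 : ℝ) ≤ m := by exact_mod_cast hm
  have h1 : (1 : ℝ) ≤ (m : ℝ) / 108 := by linarith
  obtain ⟨n, hn1, hn2⟩ := exists_nat_pow_near h1 (by norm_num : (1 : ℝ) < 729)
  have hn : 2 ≤ n := by
    by_contra hcon
    have h2 : n + 1 ≤ 2 := by omega
    have h3 : (729 : ℝ) ^ (n + 1) ≤ 729 ^ 2 := pow_le_pow_right₀ (by norm_num) h2
    have : (729 : ℝ) ^ 2 ≤ (m : ℝ) / 108 := by norm_num; linarith
    linarith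
  have hm2 : 108 * 729 ^ n ≤ m := by
    have : (108 * 729 ^ n : ℝ) ≤ m := by linarith
    exact_mod_cast this
  have h := lower_pow n hn m hm2
  have h' : ((27 * 729 ^ n : ℝ)) ^ 3 ≤ 512 * (Bh m (cubeI 2) : ℝ) := by exact_mod_cast h
  have h4 : (m : ℝ) / 2916 ≤ 27 * 729 ^ n := by
    rw [pow_succ] at hn2
    linarith
  have h5 : ((m : ℝ) / 2916) ^ 3 ≤ (27 * 729 ^ n) ^ 3 :=
    pow_le_pow_left₀ (by positivity) h4 3
  have h6 : ((m : ℝ) / 23328) ^ 3 = ((m : ℝ) / 2916) ^ 3 / 512 := by ring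
  rw [h6]
  linarith

end Pool.Agent.N382.BH
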