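import Mathlib
import Pool.Agent.N382.BH.Defs

/-!
# The upper bound for `f`
-/

set_option autoImplicit false

namespace Pool.Agent.N382.BH

open Finset

/-- The counting lemma of Kővári, Sós and Turán with codegrees at most `t`. -/
theorem codeg {X Y : Type} [Fintype X] [Fintype Y] [DecidableEq Y] (a : X → Y → ℝ)
    (ha : ∀ x y, a x y = 0 ∨ a x y = 1) (t : ℝ) (ht : 0 ≤ t)
    (h : ∀ y y', y ≠ y' → ∑ x, a x y * a x y' ≤ t) :
    (∑ x, ∑ y, a x y) ^ 2 ≤
      Fintype.card X * ((Fintype.card Y : ℝ) ^ 2 * t + ∑ x, ∑ y, a x y) := by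
  have h1 : (∑ x, ∑ y, a x y) ^ 2 ≤ Fintype.card X * ∑ x, (∑ y, a x y) ^ 2 := by
    have := sq_sum_le_card_mul_sum_sq (s := (univ : Finset X)) (f := fun x => ∑ y, a x y)
    simpa using this
  refine h1.trans ?_
  refine mul_le_mul_of_nonneg_left ?_ (Nat.cast_nonneg _)
  have h2 : ∑ x, (∑ y, a x y) ^ 2 = ∑ y, ∑ y', ∑ x, a x y * a x y' := by
    have : ∀ x, (∑ y, a x y) ^ 2 = ∑ y, ∑ y', a x y * a x y' := fun x => by
      rw [sq, Finset.sum_mul_sum]
    simp only [this]
    rw [Finset.sum_comm]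
    refine Finset.sum_congr rfl fun y _ => ?_
    rw [Finset.sum_comm]
  rw [h2]
  have h3 : ∀ y y', ∑ x, a x y * a x y' ≤ t + if y = y' then ∑ x, a x y else 0 := by
    intro y y'
    by_cases hy : y = y'
    · subst hy
      rw [if_pos rfl]
      have : ∑ x, a x y * a x y = ∑ x, a x y := by
        refine Finset.sum_congr rfl fun x _ => ?_
        rcases ha x y with h | h <;> rw [h] <;> norm_num
      rw [this]; linarith
    · rw [if_neg hy, add_zero]; exact h y y' hy
  calc ∑ y, ∑ y', ∑ x, a x y * a x y'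
      ≤ ∑ y, ∑ y', (t + if y = y' then ∑ x, a x y else 0) :=
        Finset.sum_le_sum fun y _ => Finset.sum_le_sum fun y' _ => h3 y y'
    _ = (Fintype.card Y : ℝ) ^ 2 * t + ∑ x, ∑ y, a x y := by
        simp only [Finset.sum_add_distrib, Finset.sum_const, Finset.card_univ, nsmul_eq_mul,
          Finset.sum_ite_eq, Finset.mem_univ, if_true]
        rw [Finset.sum_comm (f := fun x y => a x y)]
        ring

/-- A `K_{2,2,2}`-free tripartite hypergraph has at most `3 k ^ (11/4)` edges. -/
theorem box_free {k : ℕ} (hk : 1 ≤ k) (E : Finset ((Fin k × Fin k) × Fin k))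
    (hE : ¬ ∃ x x' y y' z z', x ≠ x' ∧ y ≠ y' ∧ z ≠ z' ∧ ((x, y), z) ∈ E ∧ ((x, y), z') ∈ E ∧
      ((x, y'), z) ∈ E ∧ ((x, y'), z') ∈ E ∧ ((x', y), z) ∈ E ∧ ((x', y), z') ∈ E ∧
      ((x', y'), z) ∈ E ∧ ((x', y'), z') ∈ E) :
    (E.card : ℝ) ≤ 3 * (k : ℝ) ^ ((11 : ℝ) / 4) := by
  classical
  have hk0 : (0 : ℝ) < k := by exact_mod_cast hk
  have hk1 : (1 : ℝ) ≤ k := by exact_mod_cast hk
  set s : ℝ := (k : ℝ) ^ ((3 : ℝ) / 2) with hs
  have hs2 : s ^ 2 = (k : ℝ) ^ 3 := by
    rw [hs, ← Real.rpow_natCast, ← Real.rpow_mul hk0.le]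
    norm_num
  have hsk : (k : ℝ) ≤ s := by
    rw [hs]
    calc (k : ℝ) = (k : ℝ) ^ (1 : ℝ) := (Real.rpow_one _).symm
      _ ≤ (k : ℝ) ^ ((3 : ℝ) / 2) := Real.rpow_le_rpow_of_exponent_le hk1 (by norm_num)
  let a : (Fin k × Fin k) → Fin k → ℝ := fun p z => if (p, z) ∈ E then 1 else 0
  have ha : ∀ p z, a p z = 0 ∨ a p z = 1 := by
    intro p z
    by_cases h : (p, z) ∈ E
    · right; simp [a, h]
    · left; simp [a, h]
  have hcard : ∑ p, ∑ z, a p z = E.card := by
    rw [← Fintype.sum_prod_type' (f := a)]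
    simp [a]
  -- common links
  have hlink : ∀ z z', z ≠ z' → ∑ p, a p z * a p z' ≤ 2 * s := by
    intro z z' hz
    let b : Fin k → Fin k → ℝ := fun x y => a (x, y) z * a (x, y) z'
    have hb : ∀ x y, b x y = 0 ∨ b x y = 1 := by
      intro x y
      rcases ha (x, y) z with h | h <;> rcases ha (x, y) z' with h' | h' <;> simp [b, h, h']
    have hb1 : ∀ x y, b x y = 1 → ((x, y), z) ∈ E ∧ ((x, y), z') ∈ E := by
      intro x y h
      by_contra hcon
      have : b x y = 0 := by
        simp only [b, a]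
        rw [not_and_or] at hcon
        rcases hcon with hcon | hcon
        · rw [if_neg hcon]; simp
        · rw [if_neg hcon]; simp
      rw [this] at h
      norm_num at h
    have hco : ∀ y y', y ≠ y' → ∑ x, b x y * b x y' ≤ 1 := by
      intro y y' hy
      by_cases hex : ∃ x, b x y * b x y' ≠ 0
      · obtain ⟨x0, hx0⟩ := hex
        have hx01 : b x0 y = 1 := (hb x0 y).resolve_left fun h => hx0 (by rw [h, zero_mul])
        have hx02 : b x0 y' = 1 := (hb x0 y').resolve_left fun h => hx0 (by rw [h, mul_zero])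
        rw [Finset.sum_eq_single x0]
        · rw [hx01, hx02]; norm_num
        · intro x _ hx
          by_contra hne
          have hx1 : b x y = 1 := (hb x y).resolve_left fun h => hne (by rw [h, zero_mul])
          have hx2 : b x y' = 1 := (hb x y').resolve_left fun h => hne (by rw [h, mul_zero])
          exact hE ⟨x, x0, y, y', z, z', hx, hy, hz, (hb1 _ _ hx1).1, (hb1 _ _ hx1).2,
            (hb1 _ _ hx2).1, (hb1 _ _ hx2).2, (hb1 _ _ hx01).1, (hb1 _ _ hx01).2,
            (hb1 _ _ hx02).1, (hb1 _ _ hx02).2⟩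
        · intro h; exact absurd (Finset.mem_univ _) h
      · push Not at hex
        rw [Finset.sum_eq_zero fun x _ => hex x]; norm_num
    have h1 := codeg b hb 1 (by norm_num) hco
    have h2 : ∑ p, a p z * a p z' = ∑ x, ∑ y, b x y := by
      rw [← Fintype.sum_prod_type' (f := b)]
    rw [h2]
    set g := ∑ x, ∑ y, b x y with hg
    simp only [Fintype.card_fin, mul_one] at h1
    by_contra hcon
    push Not at hcon
    -- `g ^ 2 ≤ k ^ 3 + k g ≤ s ^ 2 + s g` and `g > 2 s`
    nlinarith [hsk, hs2, hk0, hcon, mul_le_mul_of_nonneg_right hsk (by linarith : (0 : ℝ) ≤ g)]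
  have h1 := codeg a ha (2 * s) (by positivity) hlink
  rw [hcard] at h1
  simp only [Fintype.card_prod, Fintype.card_fin, Nat.cast_mul] at h1
  set κ : ℝ := (k : ℝ) ^ ((11 : ℝ) / 4) with hκ
  have hκ2 : κ ^ 2 = (k : ℝ) ^ 4 * s := by
    rw [hκ, hs, ← Real.rpow_natCast, ← Real.rpow_mul hk0.le, ← Real.rpow_natCast (k : ℝ) 4,
      ← Real.rpow_add hk0]
    norm_num
  have hκk : (k : ℝ) ^ 2 ≤ κ := by
    rw [hκ, ← Real.rpow_natCast]
    exact Real.rpow_le_rpow_of_exponent_le hk1 (by norm_num)
  have hκ0 : 0 < κ := Real.rpow_pos_of_pos hk0 _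
  by_contra hcon
  push Not at hcon
  set e : ℝ := (E.card : ℝ) with he
  have h2 : e ^ 2 ≤ 2 * κ ^ 2 + (k : ℝ) ^ 2 * e := by
    rw [hκ2]; linarith
  nlinarith [mul_le_mul_of_nonneg_right hκk (by linarith : (0 : ℝ) ≤ e)]

theorem cubeI_true {k : ℕ} (ρ : (Fin k ⊕ Fin k) ⊕ Fin k) (x y z : Fin k) :
    cubeI k ρ ((x, y), z) = true ↔
      ρ = Sum.inl (Sum.inl x) ∨ ρ = Sum.inl (Sum.inr y) ∨ ρ = Sum.inr z := by
  rcases ρ with (i | i) | i <;> simp [cubeI, prod, idm]

theorem box_col {k n : ℕ} (hk : 1 ≤ k) (A : Matrix (Fin (3 * k)) (Fin n) Bool)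
    (hA : IsSimple A) (hP : Berge A (cubeI k)) (hF : ¬ Berge (cubeI 2) A) :
    (n : ℝ) ≤ 10 * (k : ℝ) ^ ((11 : ℝ) / 4) := by
  classical
  obtain ⟨r, c, h⟩ := hP
  have hbij : Function.Bijective r := by
    rw [Fintype.bijective_iff_injective_and_card]
    refine ⟨r.injective, ?_⟩
    simp only [Fintype.card_fin, Fintype.card_sum]
    ring
  let re := Equiv.ofBijective r hbij
  have hre : ∀ i, re i = r i := fun i => rfl
  have hre' : ∀ ρ, r (re.symm ρ) = ρ := fun ρ => re.apply_symm_apply ρ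
  let full : Fin n → Prop := fun j => ∀ i, A i j = cubeI k (r i) (c j)
  -- full columns
  let E : Finset ((Fin k × Fin k) × Fin k) := (univ.filter full).map c
  have hE : ¬ ∃ x x' y y' z z', x ≠ x' ∧ y ≠ y' ∧ z ≠ z' ∧ ((x, y), z) ∈ E ∧ ((x, y), z') ∈ E ∧
      ((x, y'), z) ∈ E ∧ ((x, y'), z') ∈ E ∧ ((x', y), z) ∈ E ∧ ((x', y), z') ∈ E ∧
      ((x', y'), z) ∈ E ∧ ((x', y'), z') ∈ E := by
    rintro ⟨x, x', y, y', z, z', hx, hy, hz, h1, h2, h3, h4, h5, h6, h7, h8⟩
    apply hF
    let X : Fin 2 → Fin k := ![x, x']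
    let Y : Fin 2 → Fin k := ![y, y']
    let Z : Fin 2 → Fin k := ![z, z']
    have hX : Function.Injective X := by
      intro i j hij
      fin_cases i <;> fin_cases j <;> simp_all [X]
    have hY : Function.Injective Y := by
      intro i j hij
      fin_cases i <;> fin_cases j <;> simp_all [Y]
    have hZ : Function.Injective Z := by
      intro i j hij
      fin_cases i <;> fin_cases j <;> simp_all [Z]
    have hall : ∀ q : (Fin 2 × Fin 2) × Fin 2, ∃ j, full j ∧ c j = ((X q.1.1, Y q.1.2), Z q.2) := by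
      have hm : ∀ q : (Fin 2 × Fin 2) × Fin 2, ((X q.1.1, Y q.1.2), Z q.2) ∈ E := by
        rintro ⟨⟨i, j⟩, l⟩
        fin_cases i <;> fin_cases j <;> fin_cases l <;> assumption
      intro q
      have := hm q
      simp only [E, Finset.mem_map, Finset.mem_filter, Finset.mem_univ, true_and] at this
      exact this
    choose C hC1 hC2 using hall
    refine ⟨⟨fun ρ => re.symm (Sum.map (Sum.map X Y) Z ρ), ?_⟩, ⟨C, ?_⟩, ?_⟩
    · exact re.symm.injective.comp ((hX.sumMap hY).sumMap hZ)
    · intro q q' hq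
      have h9 := hC2 q
      rw [hq, hC2 q'] at h9
      simp only [Prod.mk.injEq] at h9
      refine Prod.ext (Prod.ext ?_ ?_) ?_
      · exact (hX h9.1.1).symm
      · exact (hY h9.1.2).symm
      · exact (hZ h9.2).symm
    · intro ρ q
      change cubeI 2 ρ q ≤ A (re.symm (Sum.map (Sum.map X Y) Z ρ)) (C q)
      rw [hC1 q, hre', hC2 q]
      by_cases hρ : cubeI 2 ρ q = true
      · obtain ⟨⟨i, j⟩, l⟩ := q
        rw [cubeI_true] at hρ
        have : cubeI k (Sum.map (Sum.map X Y) Z ρ) ((X i, Y j), Z l) = true := by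
          rw [cubeI_true]
          rcases hρ with rfl | rfl | rfl <;> simp
        rw [this]
        exact le_top
      · rw [Bool.not_eq_true] at hρ
        rw [hρ]
        exact bot_le
  have hEc := box_free hk E hE
  have hEc' : E.card = (univ.filter full).card := Finset.card_map _
  -- the other columns
  let supp : Fin n → Finset (Fin (3 * k)) := fun j => univ.filter fun i => A i j = true
  have hsupp : Function.Injective supp := by
    intro j j' hj
    apply hA
    intro i
    have h1 := congrArg (fun S => i ∈ S) hj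
    simp only [supp, Finset.mem_filter, Finset.mem_univ, true_and, eq_iff_iff] at h1
    rw [Bool.eq_iff_iff]
    exact h1
  have hsmall : ∀ j, ¬ full j → (supp j).card ≤ 2 := by
    intro j hj
    have hj' : ∃ i, A i j ≠ cubeI k (r i) (c j) := by
      by_contra hcon
      push Not at hcon
      exact hj hcon
    obtain ⟨i, hi⟩ := hj'
    obtain ⟨x, y, z, hq⟩ : ∃ x y z, c j = ((x, y), z) := ⟨_, _, _, rfl⟩
    let T : Finset (Fin (3 * k)) :=
      {re.symm (Sum.inl (Sum.inl x)), re.symm (Sum.inl (Sum.inr y)), re.symm (Sum.inr z)}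
    have hT : ∀ i', cubeI k (r i') (c j) = true → i' ∈ T := by
      intro i' h1
      rw [hq, cubeI_true] at h1
      simp only [T, Finset.mem_insert, Finset.mem_singleton]
      rcases h1 with h1 | h1 | h1
      · left; rw [← h1]; exact (re.symm_apply_apply i').symm
      · right; left; rw [← h1]; exact (re.symm_apply_apply i').symm
      · right; right; rw [← h1]; exact (re.symm_apply_apply i').symm
    have hi1 : A i j = false ∧ cubeI k (r i) (c j) = true := by
      have h1 := h i j
      revert h1 hi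
      cases A i j <;> cases cubeI k (r i) (c j) <;> simp
    have hsub : supp j ⊆ T.erase i := by
      intro i' h1
      simp only [supp, Finset.mem_filter, Finset.mem_univ, true_and] at h1
      rw [Finset.mem_erase]
      refine ⟨?_, ?_⟩
      · rintro rfl
        rw [hi1.1] at h1
        exact Bool.false_ne_true h1
      · apply hT
        have h2 := h i' j
        rw [h1] at h2
        exact top_le_iff.1 h2
    have h3 : T.card ≤ 3 := Finset.card_le_three
    have h4 : (T.erase i).card = T.card - 1 := Finset.card_erase_of_mem (hT i hi1.2)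
    have h5 := Finset.card_le_card hsub
    omega
  have hnf : (univ.filter fun j => ¬ full j).card ≤ 1 + 3 * k + (3 * k).choose 2 := by
    calc (univ.filter fun j => ¬ full j).card
        = ((univ.filter fun j => ¬ full j).image supp).card :=
          (Finset.card_image_of_injective _ hsupp).symm
      _ ≤ ((Finset.range 3).biUnion fun i => Finset.powersetCard i
            (univ : Finset (Fin (3 * k)))).card := by
          refine Finset.card_le_card ?_
          intro S hS
          rw [Finset.mem_image] at hS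
          obtain ⟨j, hj, rfl⟩ := hS
          rw [Finset.mem_filter] at hj
          have := hsmall j hj.2
          rw [Finset.mem_biUnion]
          exact ⟨(supp j).card, Finset.mem_range.2 (by omega),
            Finset.mem_powersetCard.2 ⟨Finset.subset_univ _, rfl⟩⟩
      _ ≤ ∑ i ∈ Finset.range 3, (Finset.powersetCard i (univ : Finset (Fin (3 * k)))).card :=
          Finset.card_biUnion_le
      _ = 1 + 3 * k + (3 * k).choose 2 := by
          simp only [Finset.card_powersetCard, Finset.card_univ, Fintype.card_fin,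
            Finset.sum_range_succ, Finset.sum_range_zero, Nat.choose_zero_right,
            Nat.choose_one_right]
  have hn : n = E.card + (univ.filter fun j => ¬ full j).card := by
    rw [hEc']
    have := Finset.card_filter_add_card_filter_not (s := (univ : Finset (Fin n))) full
    rw [Finset.card_univ, Fintype.card_fin] at this
    exact this.symm
  have hk0 : (0 : ℝ) < k := by exact_mod_cast hk
  have hk1 : (1 : ℝ) ≤ k := by exact_mod_cast hk
  have hκk : (k : ℝ) ^ 2 ≤ (k : ℝ) ^ ((11 : ℝ) / 4) := by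
    rw [← Real.rpow_natCast]
    exact Real.rpow_le_rpow_of_exponent_le hk1 (by norm_num)
  have h7 : ((1 + 3 * k + (3 * k).choose 2 : ℕ) : ℝ) ≤ 7 * (k : ℝ) ^ 2 := by
    have h8 : 1 + 3 * k + (3 * k).choose 2 ≤ 7 * k ^ 2 := by
      rw [Nat.choose_two_right]
      have h9 : 3 * k * (3 * k - 1) / 2 * 2 ≤ 3 * k * (3 * k - 1) := Nat.div_mul_le_self _ _
      have h10 : 3 * k * (3 * k - 1) = 9 * k ^ 2 - 3 * k := by
        rw [Nat.mul_sub]; ring_nf
      have h11 : k ≤ k ^ 2 := by nlinarith
      have h12 : 1 ≤ k ^ 2 := by nlinarith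
      omega
    exact_mod_cast h8
  have h8 : ((univ.filter fun j => ¬ full j).card : ℝ) ≤ 7 * (k : ℝ) ^ 2 :=
    le_trans (by exact_mod_cast hnf) h7
  rw [hn]
  push_cast
  linarith

theorem f_upper {k : ℕ} (hk : 1 ≤ k) :
    (fBerge (3 * k) (cubeI 2) (cubeI k) : ℝ) ≤ 10 * (k : ℝ) ^ ((11 : ℝ) / 4) := by
  have h0 : (0 : ℝ) ≤ 10 * (k : ℝ) ^ ((11 : ℝ) / 4) := by positivity
  have h : fBerge (3 * k) (cubeI 2) (cubeI k) ≤ ⌊10 * (k : ℝ) ^ ((11 : ℝ) / 4)⌋₊ :=
    fBerge_le fun n A a b c => Nat.le_floor (box_col hk A a b c)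
  exact (Nat.le_floor_iff h0).1 h

end Pool.Agent.N382.BH
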